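import Pool.Agent.W761.CB.Stms

/-!
Project CB (helper761), part GK: lower bound of the kernel in terms of the weights, and the
supports of the hat functions.
-/

set_option autoImplicit false

open MeasureTheory
open scoped ENNReal

namespace Pool.Agent.W249.CB

open Pool.Agent.W761.CB

theorem sup : S_SUP := by
  intro n L ℓ hL m hm hLm i x y hne c
  have hL0 : 0 < L := hL.out
  have hm0 : (0 : ℝ) < m := by exact_mod_cast (by omega : 0 < m)
  have hℓ : 0 < ℓ := by
    by_contra h
    push Not at h
    have : (m : ℝ) * ℓ ≤ 0 := mul_nonpos_of_nonneg_of_nonpos hm0.le h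
    linarith
  rcases Nat.eq_or_lt_of_le hm with h1 | h1
  · have e : L = ℓ := by rw [hLm, ← h1]; simp
    have h2 : ‖x c - y c‖ ≤ |L| / 2 := AddCircle.norm_le_half_period L hL0.ne'
    rw [abs_of_pos hL0] at h2
    linarith
  · have hℓL : ℓ < L := by
      have h2 : (2 : ℝ) ≤ m := by exact_mod_cast h1
      nlinarith
    have hx : ht L ℓ (x c - (((i c : ℝ) * ℓ : ℝ) : AddCircle L)) ≠ 0 := by
      intro h0
      apply hne
      have : hat n L ℓ i x = 0 := by
        unfold hat
        exact Finset.prod_eq_zero (Finset.mem_univ c) h0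
      rw [this, zero_mul]
    have hy : ht L ℓ (y c - (((i c : ℝ) * ℓ : ℝ) : AddCircle L)) ≠ 0 := by
      intro h0
      apply hne
      have : hat n L ℓ i y = 0 := by
        unfold hat
        exact Finset.prod_eq_zero (Finset.mem_univ c) h0
      rw [this, mul_zero]
    have key : ∀ t : AddCircle L, ht L ℓ t ≠ 0 → ‖t‖ < ℓ := by
      intro t h0
      unfold ht at h0
      rw [if_pos hℓL] at h0
      by_contra h2
      push Not at h2
      apply h0
      apply max_eq_left
      have : 1 ≤ ‖t‖ / ℓ := by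
        rw [le_div_iff₀ hℓ]; linarith
      linarith
    have kx := key _ hx
    have ky := key _ hy
    have e : x c - y c = (x c - (((i c : ℝ) * ℓ : ℝ) : AddCircle L))
        - (y c - (((i c : ℝ) * ℓ : ℝ) : AddCircle L)) := by abel
    rw [e]
    refine (norm_sub_le _ _).trans ?_
    linarith

open Classical in
theorem gk (hTF : S_TF) (hHAT : S_HAT) (hSUP : S_SUP) : S_GK := by
  intro n L ℓ hL m K g hm hLm hK hg hKg b hb
  obtain ⟨-, tf2, -, tf4, tf5, tf6, -, -⟩ := hTF n L
  obtain ⟨ha1, ha2, ha3, -, -⟩ := hHAT n L ℓ m hm hLm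
  have hsup := hSUP n L ℓ m hm hLm
  -- the weights
  have hW : ∀ x y : Tor n L, ENNReal.ofReal g * (∑ i : Fin n → Fin m, ENNReal.ofReal
      (hat n L ℓ (fun c => (i c : ℕ)) x * hat n L ℓ (fun c => (i c : ℕ)) y)) ≤
      if (∀ c, ‖(x - y) c‖ ≤ 2 * ℓ) then ENNReal.ofReal g else 0 := by
    intro x y
    split_ifs with h
    · have h1 : (∑ i : Fin n → Fin m, ENNReal.ofReal
          (hat n L ℓ (fun c => (i c : ℕ)) x * hat n L ℓ (fun c => (i c : ℕ)) y)) ≤ 1 := by
        rw [← ENNReal.ofReal_sum_of_nonneg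
          (fun i _ => mul_nonneg (ha2 _ _).1 (ha2 _ _).1)]
        rw [← ENNReal.ofReal_one]
        apply ENNReal.ofReal_le_ofReal
        rw [← ha3 x]
        refine Finset.sum_le_sum fun i _ => ?_
        exact mul_le_of_le_one_right (ha2 _ _).1 (ha2 _ _).2
      calc _ ≤ ENNReal.ofReal g * 1 := mul_le_mul_right h1 _
        _ = ENNReal.ofReal g := mul_one _
    · have h1 : (∑ i : Fin n → Fin m, ENNReal.ofReal
          (hat n L ℓ (fun c => (i c : ℕ)) x * hat n L ℓ (fun c => (i c : ℕ)) y)) = 0 := by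
        refine Finset.sum_eq_zero fun i _ => ?_
        by_contra h2
        apply h
        refine hsup (fun c => (i c : ℕ)) x y ?_
        intro h3
        apply h2
        rw [h3]; simp
      rw [h1, mul_zero]
  set H : Tor n L → ℝ≥0∞ := fun h => if (∀ c, ‖h c‖ ≤ 2 * ℓ) then ENNReal.ofReal g else 0 with hH
  have hHm : Measurable H := by
    refine Measurable.ite ?_ measurable_const measurable_const
    have : {a : Tor n L | ∀ c, ‖a c‖ ≤ 2 * ℓ} = ⋂ c, {a : Tor n L | ‖a c‖ ≤ 2 * ℓ} := by
      ext a; simp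
    rw [this]
    refine MeasurableSet.iInter fun c => ?_
    exact measurableSet_le ((measurable_pi_apply c).norm) measurable_const
  have hsubm : Measurable (fun p : Tor n L × Tor n L => p.1 - p.2) :=
    measurable_pi_lambda _ fun c =>
      ((measurable_pi_apply c).comp measurable_fst).sub ((measurable_pi_apply c).comp measurable_snd)
  have haddm : Measurable (fun p : Tor n L × Tor n L => p.1 + p.2) :=
    measurable_pi_lambda _ fun c =>
      ((measurable_pi_apply c).comp measurable_fst).add ((measurable_pi_apply c).comp measurable_snd)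
  have hbm : Measurable (fun p : Tor n L × Tor n L => b (p.1 + p.2) p.2) := by
    have h1 := hb.comp (haddm.prodMk measurable_snd)
    exact h1
  have hHs : Measurable (fun p : Tor n L × Tor n L => H (p.1 - p.2)) := by
    have h1 := hHm.comp hsubm
    exact h1
  have hG : Measurable (fun p : Tor n L × Tor n L => H (p.1 - p.2) * b p.1 p.2) := hHs.mul hb
  -- step A
  have hA : ENNReal.ofReal g * ∫⁻ x, ∫⁻ y, (∑ i : Fin n → Fin m, ENNReal.ofReal
      (hat n L ℓ (fun c => (i c : ℕ)) x * hat n L ℓ (fun c => (i c : ℕ)) y)) * b x y ≤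
      ∫⁻ x : Tor n L, ∫⁻ y : Tor n L, H (x - y) * b x y := by
    rw [← lintegral_const_mul' _ _ ENNReal.ofReal_ne_top]
    refine lintegral_mono fun x => ?_
    simp only
    rw [← lintegral_const_mul' _ _ ENNReal.ofReal_ne_top]
    refine lintegral_mono fun y => ?_
    simp only
    rw [← mul_assoc]
    exact mul_le_mul_left (hW x y) _
  -- step B
  have hB : ∫⁻ x : Tor n L, ∫⁻ y : Tor n L, H (x - y) * b x y
      = ∫⁻ y : Tor n L, ∫⁻ x : Tor n L, H (x - y) * b x y := by
    exact lintegral_lintegral_swap (f := fun x y : Tor n L => H (x - y) * b x y) hG.aemeasurable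
  -- step C
  have hC : ∀ y : Tor n L, ∫⁻ x : Tor n L, H (x - y) * b x y
      = ∫⁻ h : Tor n L, H h * b (h + y) y := by
    intro y
    have hf : Measurable (fun x : Tor n L => H (x - y) * b x y) := by
      have h1 := hG.comp (measurable_prodMk_right (y := y))
      exact h1
    rw [← tf5 _ hf y]
    refine lintegral_congr fun h => ?_
    rw [add_sub_cancel_right]
  -- step D
  have hD : ∫⁻ y : Tor n L, ∫⁻ h : Tor n L, H h * b (h + y) y
      = ∫⁻ h : Tor n L, H h * ∫⁻ y : Tor n L, b (h + y) y := by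
    have h0 : Measurable (fun p : Tor n L × Tor n L => b (p.2 + p.1) p.1) := by
      have h1 := hbm.comp (measurable_snd.prodMk measurable_fst)
      exact h1
    have h00 : Measurable (fun p : Tor n L × Tor n L => H p.2) := by
      exact hHm.comp measurable_snd
    have h1 : Measurable (fun p : Tor n L × Tor n L => H p.2 * b (p.2 + p.1) p.1) := h00.mul h0
    have h2 : ∀ h : Tor n L, Measurable (fun y : Tor n L => b (h + y) y) := by
      intro h
      have h1 := hbm.comp (measurable_prodMk_left (x := h))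
      exact h1
    have h3 : ∫⁻ y : Tor n L, ∫⁻ h : Tor n L, H h * b (h + y) y
        = ∫⁻ h : Tor n L, ∫⁻ y : Tor n L, H h * b (h + y) y :=
      lintegral_lintegral_swap (f := fun y h : Tor n L => H h * b (h + y) y) h1.aemeasurable
    rw [h3]
    exact lintegral_congr fun h => lintegral_const_mul (H h) (h2 h)
  have hint : Measurable (fun h : Tor n L => ∫⁻ y : Tor n L, b (h + y) y) :=
    hbm.lintegral_prod_right'
  -- step E
  have hE : ∫⁻ h : Tor n L, H h * ∫⁻ y : Tor n L, b (h + y) y
      = ∫⁻ z in {z : Fin n → ℝ | ∀ c, -(L / 2) < z c ∧ z c ≤ L / 2},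
        H (pr L z) * ∫⁻ y : Tor n L, b (pr L z + y) y :=
    tf4 _ (hHm.mul hint)
  have hDm : MeasurableSet {z : Fin n → ℝ | ∀ c, -(L / 2) < z c ∧ z c ≤ L / 2} := by
    have : {z : Fin n → ℝ | ∀ c, -(L / 2) < z c ∧ z c ≤ L / 2}
        = ⋂ c, ({z : Fin n → ℝ | -(L / 2) < z c} ∩ {z : Fin n → ℝ | z c ≤ L / 2}) := by
      ext a; simp
    rw [this]
    refine MeasurableSet.iInter fun c => ?_
    exact (measurableSet_lt measurable_const (measurable_pi_apply c)).inter
      (measurableSet_le (measurable_pi_apply c) measurable_const)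
  -- step F
  have hF : ∫⁻ z in {z : Fin n → ℝ | ∀ c, -(L / 2) < z c ∧ z c ≤ L / 2},
        H (pr L z) * ∫⁻ y : Tor n L, b (pr L z + y) y
      ≤ ∫⁻ z : Fin n → ℝ, K z * ∫⁻ x, b (x + pr L z) x := by
    refine (setLIntegral_mono' hDm (g := fun z => K z * ∫⁻ x, b (x + pr L z) x) ?_).trans
      (setLIntegral_le_lintegral _ _)
    intro z hz
    have hz1 : ∀ c, |z c| ≤ L / 2 := fun c => abs_le.mpr ⟨(hz c).1.le, (hz c).2⟩
    have hz2 := tf6 z hz1
    have e : ∀ y : Tor n L, pr L z + y = y + pr L z := fun y => add_comm _ _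
    simp only [e]
    refine mul_le_mul_left ?_ _
    simp only [hH]
    split_ifs with h
    · exact hKg z fun c => by rw [← hz2 c]; exact h c
    · exact bot_le
  calc _ ≤ _ := hA
    _ = _ := hB
    _ = ∫⁻ y : Tor n L, ∫⁻ h : Tor n L, H h * b (h + y) y := lintegral_congr hC
    _ = _ := hD
    _ = _ := hE
    _ ≤ _ := hF

end Pool.Agent.W249.CB

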